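import Mathlib

set_option maxHeartbeats 4000000

open Matrix Module
open scoped BigOperators

namespace W62.ASA

/-- the linear map sending the standard basis vectors to a given family -/
def lc {m n : ℕ} (w : Fin m → EuclideanSpace ℝ (Fin n)) :
    EuclideanSpace ℝ (Fin m) →ₗ[ℝ] EuclideanSpace ℝ (Fin n) where
  toFun y := ∑ j, y j • w j
  map_add' x y := by
    rw [← Finset.sum_add_distrib]
    exact Finset.sum_congr rfl fun j _ => by simp [add_smul]
  map_smul' c x := by
    rw [Finset.smul_sum]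
    exact Finset.sum_congr rfl fun j _ => by simp [mul_smul]

theorem lc_apply {m n : ℕ} (w : Fin m → EuclideanSpace ℝ (Fin n)) (y : EuclideanSpace ℝ (Fin m)) :
    lc w y = ∑ j, y j • w j := rfl

theorem lc_basis {m n : ℕ} (w : Fin m → EuclideanSpace ℝ (Fin n)) (j : Fin m) :
    lc w (EuclideanSpace.basisFun (Fin m) ℝ j) = w j := by
  rw [lc_apply, Finset.sum_eq_single j]
  · simp
  · intro b _ hb
    simp [hb]
  · simp

/-- matrix of a linear endomorphism -/
noncomputable def mat {n : ℕ} (L : EuclideanSpace ℝ (Fin n) →ₗ[ℝ] EuclideanSpace ℝ (Fin n)) :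
    Matrix (Fin n) (Fin n) ℝ := fun i j => L (EuclideanSpace.single j 1) i

theorem euc_sum {n : ℕ} (x : EuclideanSpace ℝ (Fin n)) :
    x = ∑ j, x j • EuclideanSpace.single j (1 : ℝ) := by
  ext i
  simp [Finset.sum_apply, Pi.single_apply]

theorem mat_apply_vec {n : ℕ} (L : EuclideanSpace ℝ (Fin n) →ₗ[ℝ] EuclideanSpace ℝ (Fin n))
    (x : EuclideanSpace ℝ (Fin n)) (i : Fin n) : L x i = ∑ j, mat L i j * x j := by
  conv_lhs => rw [euc_sum x, map_sum]
  simp only [map_smul]
  simp [mat, mul_comm]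

/-- determinant of the Gram matrix of a matrix with one column deleted -/
theorem det_gram_del {m : ℕ} (K : Matrix (Fin (m + 1)) (Fin (m + 1)) ℝ) (i : Fin (m + 1)) :
    ((K.submatrix id i.succAbove)ᵀ * (K.submatrix id i.succAbove)).det =
      ∑ k, (K.adjugate i k) ^ 2 := by
  have h1 : (K.submatrix id i.succAbove)ᵀ * (K.submatrix id i.succAbove) =
      (Kᵀ * K).submatrix i.succAbove i.succAbove := by
    ext a b
    simp [Matrix.mul_apply]
  have h2 := Matrix.adjugate_fin_succ_eq_det_submatrix (Kᵀ * K) i i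
  have h3 : ((-1 : ℝ)) ^ ((i : ℕ) + (i : ℕ)) = 1 := by
    rw [← two_mul, pow_mul]; simp
  rw [h3, one_mul] at h2
  rw [h1, ← h2, Matrix.adjugate_mul_distrib, Matrix.mul_apply]
  refine Finset.sum_congr rfl fun k _ => ?_
  rw [← Matrix.adjugate_transpose, Matrix.transpose_apply]
  ring

/-- norm determinant of a composition with the map of a family given by the columns of a matrix
with one column deleted -/
theorem normDet_lc {m : ℕ} (L : EuclideanSpace ℝ (Fin (m + 1)) →ₗ[ℝ] EuclideanSpace ℝ (Fin (m + 1)))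
    (D : Matrix (Fin (m + 1)) (Fin (m + 1)) ℝ) (i : Fin (m + 1))
    (w : Fin m → EuclideanSpace ℝ (Fin (m + 1))) (hw : ∀ j k, w j k = D k (i.succAbove j)) :
    (L ∘ₗ lc w).normDet ^ 2 = ∑ k, ((mat L * D).adjugate i k) ^ 2 := by
  rw [← det_gram_del]
  have h := LinearMap.normDet_sq_eq_det_gram (L ∘ₗ lc w) (EuclideanSpace.basisFun (Fin m) ℝ)
  simp only [RCLike.ofReal_real_eq_id, id_eq] at h
  rw [h]
  congr 1
  ext a b
  rw [Matrix.gram_apply, Matrix.mul_apply]
  simp only [LinearMap.comp_apply, lc_basis]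
  rw [PiLp.inner_apply]
  refine Finset.sum_congr rfl fun k _ => ?_
  simp only [Matrix.transpose_apply, Matrix.submatrix_apply, id_eq, Matrix.mul_apply]
  rw [mat_apply_vec, mat_apply_vec]
  simp only [hw]
  simp [mul_comm]

/-- the vectors describing the areas of all facets -/
noncomputable def av {m : ℕ}
    (L : EuclideanSpace ℝ (Fin (m + 1)) →ₗ[ℝ] EuclideanSpace ℝ (Fin (m + 1)))
    (i : Fin (m + 1)) : EuclideanSpace ℝ (Fin (m + 1)) :=
  WithLp.toLp 2 (fun k => (mat L).adjugate i k)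

/-- insertion of a zero coordinate -/
noncomputable def wi {m : ℕ} (i : Fin (m + 1)) (j : Fin m) : EuclideanSpace ℝ (Fin (m + 1)) :=
  EuclideanSpace.single (i.succAbove j) 1

theorem normDet_wi {m : ℕ}
    (L : EuclideanSpace ℝ (Fin (m + 1)) →ₗ[ℝ] EuclideanSpace ℝ (Fin (m + 1)))
    (i : Fin (m + 1)) : (L ∘ₗ lc (wi i)).normDet = ‖av L i‖ := by
  have h := normDet_lc L 1 i (wi i) (by
    intro j k
    simp [wi, Matrix.one_apply, Pi.single_apply])
  rw [Matrix.mul_one] at h
  have h2 : ‖av L i‖ ^ 2 = ∑ k, ((mat L).adjugate i k) ^ 2 := by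
    rw [EuclideanSpace.norm_sq_eq]
    simp [av]
  have h3 : (L ∘ₗ lc (wi i)).normDet ^ 2 = ‖av L i‖ ^ 2 := by rw [h, h2]
  exact (sq_eq_sq₀ (LinearMap.normDet_nonneg _) (norm_nonneg _)).mp h3

/-- the edge vectors of the facet of the cross-polytope with signs `s` -/
noncomputable def ws {m : ℕ} (s : Fin (m + 1) → ℝ) (j : Fin m) : EuclideanSpace ℝ (Fin (m + 1)) :=
  EuclideanSpace.single j.castSucc (s j.castSucc) -
    EuclideanSpace.single (Fin.last m) (s (Fin.last m))

/-- auxiliary matrix -/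
noncomputable def DD {m : ℕ} (s : Fin (m + 1) → ℝ) : Matrix (Fin (m + 1)) (Fin (m + 1)) ℝ :=
  fun k j => if k = j then s j else if k = Fin.last m then - s (Fin.last m) else 0

theorem DD_det {m : ℕ} (s : Fin (m + 1) → ℝ) : (DD s).det = ∏ i, s i := by
  rw [Matrix.det_of_lowerTriangular]
  · simp [DD]
  · intro i j hij
    have hij' : i < j := by simpa using hij
    have h1 : i ≠ j := ne_of_lt hij'
    have h2 : i ≠ Fin.last m := by
      intro h
      rw [h] at hij'
      exact absurd hij' (not_lt.mpr (Fin.le_last j))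
    simp [DD, h1, h2]

theorem DD_vec {m : ℕ} (s : Fin (m + 1) → ℝ) (hs : ∀ i, s i * s i = 1) :
    Matrix.vecMul s (DD s) = Pi.single (Fin.last m) 1 := by
  ext j
  rw [Matrix.vecMul, dotProduct]
  by_cases hj : j = Fin.last m
  · subst hj
    rw [Finset.sum_eq_single (Fin.last m)]
    · simp [DD, hs]
    · intro b _ hb
      simp [DD, hb]
    · simp
  · have : ∀ k, s k * DD s k j = (if k = j then 1 else 0) + (if k = Fin.last m then -1 else 0) := by
      intro k
      by_cases hk : k = j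
      · subst hk
        simp [DD, hs, hj]
      · by_cases hk2 : k = Fin.last m
        · subst hk2
          simp [DD, hk, hs]
        · simp [DD, hk, hk2]
    rw [Finset.sum_congr rfl fun k _ => this k, Finset.sum_add_distrib]
    simp [hj]

theorem adj_last {m : ℕ} (s : Fin (m + 1) → ℝ) (hs : ∀ i, s i * s i = 1)
    (M : Matrix (Fin (m + 1)) (Fin (m + 1)) ℝ) (k : Fin (m + 1)) :
    (M * DD s).adjugate (Fin.last m) k = (∏ i, s i) * ∑ i, s i * M.adjugate i k := by
  rw [Matrix.adjugate_mul_distrib, Matrix.mul_apply]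
  have h1 : ∀ j, (DD s).adjugate (Fin.last m) j = (∏ i, s i) * s j := by
    intro j
    have h2 : Matrix.vecMul (Matrix.vecMul s (DD s)) (DD s).adjugate = (DD s).det • s := by
      rw [Matrix.vecMul_vecMul, Matrix.mul_adjugate, Matrix.vecMul_smul, Matrix.vecMul_one]
    rw [DD_vec s hs, Matrix.single_one_vecMul] at h2
    have h3 := congrFun h2 j
    rw [DD_det] at h3
    simpa using h3
  rw [Finset.mul_sum]
  refine Finset.sum_congr rfl fun j _ => ?_
  rw [h1]; ring

theorem normDet_ws {m : ℕ}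
    (L : EuclideanSpace ℝ (Fin (m + 1)) →ₗ[ℝ] EuclideanSpace ℝ (Fin (m + 1)))
    (s : Fin (m + 1) → ℝ) (hs : ∀ i, s i * s i = 1) :
    (L ∘ₗ lc (ws s)).normDet = ‖∑ i, s i • av L i‖ := by
  have h := normDet_lc L (DD s) (Fin.last m) (ws s) (by
    intro j k
    rw [Fin.succAbove_last]
    by_cases hk : k = j.castSucc
    · subst hk
      have : j.castSucc ≠ Fin.last m := (Fin.castSucc_lt_last j).ne
      simp [ws, DD, this]
    · by_cases hk2 : k = Fin.last m
      · subst hk2
        simp [ws, DD, hk]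
      · simp [ws, DD, hk, hk2])
  have hp : (∏ i, s i) ^ 2 = 1 := by
    rw [← Finset.prod_pow]
    exact Finset.prod_eq_one fun i _ => by rw [sq]; exact hs i
  have h2 : ‖∑ i, s i • av L i‖ ^ 2 = ∑ k, (∑ i, s i * (mat L).adjugate i k) ^ 2 := by
    rw [EuclideanSpace.norm_sq_eq]
    simp [av]
  have h3 : (L ∘ₗ lc (ws s)).normDet ^ 2 = ‖∑ i, s i • av L i‖ ^ 2 := by
    rw [h, h2]
    refine Finset.sum_congr rfl fun k _ => ?_
    rw [adj_last s hs, mul_pow, hp, one_mul]
  exact (sq_eq_sq₀ (LinearMap.normDet_nonneg _) (norm_nonneg _)).mp h3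

end W62.ASA
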