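import Mathlib

set_option maxHeartbeats 4000000

open scoped BigOperators

namespace W62.ASA

/-- Hlawka's inequality in a real inner product space -/
theorem hlawka {V : Type*} [NormedAddCommGroup V] [InnerProductSpace ℝ V] (x y z : V) :
    ‖x + y‖ + ‖y + z‖ + ‖z + x‖ ≤ ‖x + y + z‖ + ‖x‖ + ‖y‖ + ‖z‖ := by
  have e1 : ‖x + y‖ ≤ ‖x‖ + ‖y‖ := norm_add_le _ _
  have e2 : ‖y + z‖ ≤ ‖y‖ + ‖z‖ := norm_add_le _ _
  have e3 : ‖z + x‖ ≤ ‖z‖ + ‖x‖ := norm_add_le _ _
  have f1 : ‖x + y‖ ≤ ‖x + y + z‖ + ‖z‖ := by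
    calc ‖x + y‖ = ‖(x + y + z) - z‖ := by congr 1; abel
      _ ≤ _ := norm_sub_le _ _
  have f2 : ‖y + z‖ ≤ ‖x + y + z‖ + ‖x‖ := by
    calc ‖y + z‖ = ‖(x + y + z) - x‖ := by congr 1; abel
      _ ≤ _ := norm_sub_le _ _
  have f3 : ‖z + x‖ ≤ ‖x + y + z‖ + ‖y‖ := by
    calc ‖z + x‖ = ‖(x + y + z) - y‖ := by congr 1; abel
      _ ≤ _ := norm_sub_le _ _
  have hid : ‖x + y + z‖ ^ 2 + ‖x‖ ^ 2 + ‖y‖ ^ 2 + ‖z‖ ^ 2 =
      ‖x + y‖ ^ 2 + ‖y + z‖ ^ 2 + ‖z + x‖ ^ 2 := by
    simp only [← real_inner_self_eq_norm_sq, inner_add_left, inner_add_right]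
    rw [real_inner_comm x y, real_inner_comm x z, real_inner_comm y z]
    ring
  set N := ‖x + y + z‖
  set a := ‖x‖
  set b := ‖y‖
  set c := ‖z‖
  set p := ‖x + y‖
  set q := ‖y + z‖
  set r := ‖z + x‖
  have ha : 0 ≤ a := norm_nonneg _
  have hb : 0 ≤ b := norm_nonneg _
  have hc : 0 ≤ c := norm_nonneg _
  have hN : 0 ≤ N := norm_nonneg _
  have key : (N + a + b + c - p - q - r) * (N + a + b + c) =
      (b + c - q) * (N + a - q) + (c + a - r) * (N + b - r) + (a + b - p) * (N + c - p) := by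
    linear_combination hid
  have hpos : 0 ≤ (N + a + b + c - p - q - r) * (N + a + b + c) := by
    rw [key]
    have g1 := mul_nonneg (sub_nonneg.mpr e2) (sub_nonneg.mpr f2)
    have g2 := mul_nonneg (sub_nonneg.mpr e3) (sub_nonneg.mpr f3)
    have g3 := mul_nonneg (sub_nonneg.mpr e1) (sub_nonneg.mpr f1)
    linarith
  rcases (add_nonneg (add_nonneg (add_nonneg hN ha) hb) hc).eq_or_lt with h0 | h0
  · have : a = 0 ∧ b = 0 ∧ c = 0 ∧ N = 0 := ⟨by linarith, by linarith, by linarith, by linarith⟩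
    linarith [this.1, this.2.1, this.2.2.1, this.2.2.2]
  · have := nonneg_of_mul_nonneg_left hpos h0
    linarith

/-- the four-term form -/
theorem hlawka4 {V : Type*} [NormedAddCommGroup V] [InnerProductSpace ℝ V] (a b c : V) :
    2 * (‖a‖ + ‖b‖ + ‖c‖) ≤
      ‖a + b + c‖ + ‖-a + b + c‖ + ‖a - b + c‖ + ‖a + b - c‖ := by
  have h := hlawka (a + b - c) (a - b + c) (-a + b + c)
  have h1 : (a + b - c) + (a - b + c) = (2 : ℝ) • a := by rw [two_smul]; abel
  have h2 : (a - b + c) + (-a + b + c) = (2 : ℝ) • c := by rw [two_smul]; abel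
  have h3 : (-a + b + c) + (a + b - c) = (2 : ℝ) • b := by rw [two_smul]; abel
  have h4 : (a + b - c) + (a - b + c) + (-a + b + c) = a + b + c := by abel
  rw [h4, h1, h2, h3] at h
  simp only [norm_smul, Real.norm_ofNat] at h
  linarith

/-- sign of a boolean -/
def sg (b : Bool) : ℝ := if b then 1 else -1

theorem sg_mul_self (b : Bool) : sg b * sg b = 1 := by cases b <;> simp [sg]

theorem abs_sg (b : Bool) : |sg b| = 1 := by cases b <;> simp [sg]

theorem sg_not (b : Bool) : sg (!b) = - sg b := by cases b <;> simp [sg]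

/-- xor with a fixed pattern -/
def flip {n : ℕ} (c : Fin n → Bool) : (Fin n → Bool) ≃ (Fin n → Bool) :=
  Function.Involutive.toPerm (fun s i => xor (c i) (s i)) (by
    intro s; ext i; simp)

theorem flip_apply {n : ℕ} (c s : Fin n → Bool) (i : Fin n) : flip c s i = xor (c i) (s i) := rfl

theorem sum_flip {n : ℕ} (c : Fin n → Bool) (f : (Fin n → Bool) → ℝ) :
    ∑ s, f (flip c s) = ∑ s, f s := Equiv.sum_comp (flip c) f

variable {V : Type*} [NormedAddCommGroup V] [InnerProductSpace ℝ V]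

theorem triple {n : ℕ} (v : Fin n → V) {i j k : Fin n} (hij : i ≠ j) (hik : i ≠ k) (hjk : j ≠ k) :
    (2 : ℝ) ^ n * (‖v i‖ + ‖v j‖ + ‖v k‖) ≤ 2 * ∑ s : Fin n → Bool, ‖∑ l, sg (s l) • v l‖ := by
  -- step 1: remove the other coordinates
  have h1 : ∑ s : Fin n → Bool, ‖sg (s i) • v i + sg (s j) • v j + sg (s k) • v k‖ ≤
      ∑ s : Fin n → Bool, ‖∑ l, sg (s l) • v l‖ := by
    set c : Fin n → Bool := fun l => decide (¬ (l = i ∨ l = j ∨ l = k)) with hc
    have h2 : ∀ s : Fin n → Bool, 2 * ‖sg (s i) • v i + sg (s j) • v j + sg (s k) • v k‖ ≤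
        ‖∑ l, sg (s l) • v l‖ + ‖∑ l, sg (flip c s l) • v l‖ := by
      intro s
      have h3 : ∑ l, sg (s l) • v l + ∑ l, sg (flip c s l) • v l =
          (2 : ℝ) • (sg (s i) • v i + sg (s j) • v j + sg (s k) • v k) := by
        rw [← Finset.sum_add_distrib]
        have h4 : ∀ l, sg (s l) • v l + sg (flip c s l) • v l =
            (if l = i then (2 : ℝ) • (sg (s i) • v i) else 0) +
            (if l = j then (2 : ℝ) • (sg (s j) • v j) else 0) +
            (if l = k then (2 : ℝ) • (sg (s k) • v k) else 0) := by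
          intro l
          rw [flip_apply]
          by_cases hli : l = i
          · subst hli
            simp [hc, hij, hik, two_smul]
          · by_cases hlj : l = j
            · subst hlj
              simp [hc, hli, hjk, two_smul]
            · by_cases hlk : l = k
              · subst hlk
                simp [hc, hli, hlj, two_smul]
              · simp [hc, hli, hlj, hlk, sg_not]
        rw [Finset.sum_congr rfl fun l _ => h4 l, Finset.sum_add_distrib, Finset.sum_add_distrib]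
        simp [smul_add]
      calc 2 * ‖sg (s i) • v i + sg (s j) • v j + sg (s k) • v k‖
          = ‖(2 : ℝ) • (sg (s i) • v i + sg (s j) • v j + sg (s k) • v k)‖ := by
            rw [norm_smul]; simp
        _ = ‖∑ l, sg (s l) • v l + ∑ l, sg (flip c s l) • v l‖ := by rw [h3]
        _ ≤ _ := norm_add_le _ _
    have h5 := Finset.sum_le_sum fun s (_ : s ∈ Finset.univ) => h2 s
    rw [← Finset.mul_sum, Finset.sum_add_distrib,
      sum_flip c (fun s => ‖∑ l, sg (s l) • v l‖)] at h5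
    linarith
  -- step 2 : Hlawka
  set g : (Fin n → Bool) → ℝ := fun s => ‖sg (s i) • v i + sg (s j) • v j + sg (s k) • v k‖ with hg
  have h6 : ∀ s : Fin n → Bool, 2 * (‖v i‖ + ‖v j‖ + ‖v k‖) ≤
      g s + g (flip (fun l => decide (l = i)) s) + g (flip (fun l => decide (l = j)) s) +
        g (flip (fun l => decide (l = k)) s) := by
    intro s
    have h7 := hlawka4 (sg (s i) • v i) (sg (s j) • v j) (sg (s k) • v k)
    simp only [norm_smul, Real.norm_eq_abs, abs_sg, one_mul] at h7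
    simp only [hg, flip_apply]
    simpa [hij, hik, hjk, hij.symm, hik.symm, hjk.symm, sg_not, sub_eq_add_neg] using h7
  have h8 := Finset.sum_le_sum fun s (_ : s ∈ Finset.univ) => h6 s
  rw [Finset.sum_add_distrib, Finset.sum_add_distrib, Finset.sum_add_distrib, sum_flip, sum_flip,
    sum_flip, Finset.sum_const, Finset.card_univ] at h8
  have hcard : Fintype.card (Fin n → Bool) = 2 ^ n := by simp
  rw [hcard, nsmul_eq_mul] at h8
  push_cast at h8
  linarith

/-- averaged over cyclic triples -/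
theorem sign_sum {m : ℕ} (hm : 2 ≤ m) (v : Fin (m + 1) → V) :
    3 * (2 : ℝ) ^ (m + 1) * ∑ i, ‖v i‖ ≤
      2 * ((m : ℝ) + 1) * ∑ s : Fin (m + 1) → Bool, ‖∑ l, sg (s l) • v l‖ := by
  have h1 : ∀ i : Fin (m + 1), (2 : ℝ) ^ (m + 1) * (‖v i‖ + ‖v (i + 1)‖ + ‖v (i + 2)‖) ≤
      2 * ∑ s : Fin (m + 1) → Bool, ‖∑ l, sg (s l) • v l‖ := by
    intro i
    obtain ⟨k, rfl⟩ : ∃ k, m = k + 2 := ⟨m - 2, by omega⟩
    have h01 : (1 : Fin (k + 2 + 1)) ≠ 0 := by
      intro h
      have := congrArg Fin.val h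
      simp at this
    have hmod : 2 % (k + 2 + 1) = 2 := Nat.mod_eq_of_lt (by omega)
    have h02 : (2 : Fin (k + 2 + 1)) ≠ 0 := by
      intro h
      have := congrArg Fin.val h
      simp [hmod] at this
    have h12 : (1 : Fin (k + 2 + 1)) ≠ 2 := by
      intro h
      have := congrArg Fin.val h
      simp [hmod] at this
    refine triple v ?_ ?_ ?_
    · intro h
      exact h01 (by simpa using h.symm)
    · intro h
      exact h02 (by simpa using h.symm)
    · intro h
      exact h12 (by simpa using h)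
  have h2 := Finset.sum_le_sum fun i (_ : i ∈ Finset.univ) => h1 i
  have e1 : ∑ i, ‖v (i + 1)‖ = ∑ i, ‖v i‖ :=
    Equiv.sum_comp (Equiv.addRight (1 : Fin (m + 1))) (fun i => ‖v i‖)
  have e2 : ∑ i, ‖v (i + 2)‖ = ∑ i, ‖v i‖ :=
    Equiv.sum_comp (Equiv.addRight (2 : Fin (m + 1))) (fun i => ‖v i‖)
  rw [← Finset.mul_sum, Finset.sum_add_distrib, Finset.sum_add_distrib, e1, e2, Finset.sum_const,
    Finset.card_univ, Fintype.card_fin, nsmul_eq_mul] at h2
  push_cast at h2
  linarith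

end W62.ASA
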