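import Mathlib
import Pool.Agent.W62.ASA.Det
import Pool.Agent.W62.ASA.Hlawka

set_option maxHeartbeats 4000000

open MeasureTheory Measure Set Module
open scoped BigOperators ENNReal NNReal Pointwise

namespace W62.ASA

/-- the cross-polytope of radius `r` -/
def cross (n : ℕ) (r : ℝ) : Set (EuclideanSpace ℝ (Fin n)) := {x | ∑ i, |x i| ≤ r}

/-- the cross-polytope of radius one with its vertices cut off -/
def trunc (n : ℕ) (d : ℝ) : Set (EuclideanSpace ℝ (Fin n)) :=
  {x | ∑ i, |x i| ≤ 1 ∧ ∀ i, |x i| ≤ 1 - d}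

/-- the solid standard simplex -/
def dsx (m : ℕ) : Set (EuclideanSpace ℝ (Fin m)) := {y | (∀ j, 0 ≤ y j) ∧ ∑ j, y j ≤ 1}

/-- a facet of the cross-polytope -/
def face {n : ℕ} (s : Fin n → Bool) (r : ℝ) : Set (EuclideanSpace ℝ (Fin n)) :=
  {x | (∀ i, 0 ≤ sg (s i) * x i) ∧ ∑ i, sg (s i) * x i = r}

/-- a lower dimensional cross-polytope in the hyperplane `x i = c` -/
def sq {m : ℕ} (i : Fin (m + 1)) (c r : ℝ) : Set (EuclideanSpace ℝ (Fin (m + 1))) :=
  {x | x i = c ∧ ∑ j, |x (i.succAbove j)| ≤ r}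

theorem abs_of_sg {b : Bool} {t : ℝ} (h : 0 ≤ sg b * t) : |t| = sg b * t := by
  cases b <;> simp [sg] at h ⊢ <;> exact h

theorem exists_sg (t : ℝ) : sg (decide (0 ≤ t)) * t = |t| := by
  by_cases h : 0 ≤ t
  · simp [sg, h, abs_of_nonneg h]
  · simp [sg, h, abs_of_neg (not_le.mp h)]

theorem cont_abs {n : ℕ} (i : Fin n) : Continuous fun x : EuclideanSpace ℝ (Fin n) => |x i| := by
  fun_prop

theorem cont_sum {n : ℕ} : Continuous fun x : EuclideanSpace ℝ (Fin n) => ∑ i, |x i| := by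
  fun_prop

theorem cross_closed (n : ℕ) (r : ℝ) : IsClosed (cross n r) :=
  isClosed_le cont_sum continuous_const

theorem trunc_closed (n : ℕ) (d : ℝ) : IsClosed (trunc n d) := by
  have h : trunc n d = {x | ∑ i, |x i| ≤ 1} ∩ ⋂ i, {x | |x i| ≤ 1 - d} := by
    ext x; simp [trunc]
  rw [h]
  exact (isClosed_le cont_sum continuous_const).inter
    (isClosed_iInter fun i => isClosed_le (cont_abs i) continuous_const)

theorem face_closed {n : ℕ} (s : Fin n → Bool) (r : ℝ) : IsClosed (face s r) := by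
  have h : face s r = (⋂ i, {x : EuclideanSpace ℝ (Fin n) | 0 ≤ sg (s i) * x i}) ∩
      {x : EuclideanSpace ℝ (Fin n) | ∑ i, sg (s i) * x i = r} := by
    ext x; simp [face]
  rw [h]
  refine (isClosed_iInter fun i => isClosed_le continuous_const ?_).inter
    (isClosed_eq ?_ continuous_const)
  · fun_prop
  · fun_prop

theorem cross_bounded (n : ℕ) (r : ℝ) : Bornology.IsBounded (cross n r) := by
  rw [isBounded_iff_forall_norm_le]
  refine ⟨∑ _i : Fin n, |r|, fun x hx => ?_⟩
  have h1 : ‖x‖ ≤ ∑ i, |x i| := by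
    have : x = ∑ j, x j • EuclideanSpace.single j (1 : ℝ) := euc_sum x
    calc ‖x‖ = ‖∑ j, x j • EuclideanSpace.single j (1 : ℝ)‖ := by rw [← this]
      _ ≤ ∑ j, ‖x j • EuclideanSpace.single j (1 : ℝ)‖ := norm_sum_le _ _
      _ = ∑ i, |x i| := by
        refine Finset.sum_congr rfl fun j _ => ?_
        rw [norm_smul, Real.norm_eq_abs]
        simp
  rcases n with _ | n
  · simp at h1 ⊢
    simpa using h1
  · have h2 : ∑ i, |x i| ≤ r := hx
    have h3 : r ≤ |r| := le_abs_self r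
    have h4 : |r| ≤ ∑ _i : Fin (n + 1), |r| := by
      rw [Finset.sum_const, Finset.card_univ, Fintype.card_fin, nsmul_eq_mul]
      have : (1 : ℝ) ≤ ((n + 1 : ℕ) : ℝ) := by push_cast; linarith [Nat.cast_nonneg (α := ℝ) n]
      nlinarith [abs_nonneg r]
    linarith

theorem cross_compact (n : ℕ) (r : ℝ) : IsCompact (cross n r) :=
  Metric.isCompact_of_isClosed_isBounded (cross_closed n r) (cross_bounded n r)

theorem trunc_sub (n : ℕ) (d : ℝ) : trunc n d ⊆ cross n 1 := fun _ hx => hx.1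

theorem trunc_compact (n : ℕ) (d : ℝ) : IsCompact (trunc n d) :=
  (cross_compact n 1).of_isClosed_subset (trunc_closed n d) (trunc_sub n d)

theorem convexOn_abs {n : ℕ} (i : Fin n) (r : ℝ) :
    Convex ℝ {x : EuclideanSpace ℝ (Fin n) | |x i| ≤ r} := by
  intro x hx y hy a b ha hb hab
  simp only [mem_setOf_eq] at hx hy ⊢
  calc |(a • x + b • y) i| = |a * x i + b * y i| := by simp
    _ ≤ |a * x i| + |b * y i| := abs_add_le _ _
    _ = a * |x i| + b * |y i| := by rw [abs_mul, abs_mul, abs_of_nonneg ha, abs_of_nonneg hb]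
    _ ≤ a * r + b * r := by gcongr
    _ = r := by rw [← add_mul, hab, one_mul]

theorem cross_convex (n : ℕ) (r : ℝ) : Convex ℝ (cross n r) := by
  intro x hx y hy a b ha hb hab
  simp only [cross, mem_setOf_eq] at hx hy ⊢
  calc ∑ i, |(a • x + b • y) i| ≤ ∑ i, (a * |x i| + b * |y i|) := by
        refine Finset.sum_le_sum fun i _ => ?_
        calc |(a • x + b • y) i| = |a * x i + b * y i| := by simp
          _ ≤ |a * x i| + |b * y i| := abs_add_le _ _
          _ = a * |x i| + b * |y i| := by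
            rw [abs_mul, abs_mul, abs_of_nonneg ha, abs_of_nonneg hb]
    _ = a * ∑ i, |x i| + b * ∑ i, |y i| := by
        rw [Finset.sum_add_distrib, Finset.mul_sum, Finset.mul_sum]
    _ ≤ a * r + b * r := by gcongr
    _ = r := by rw [← add_mul, hab, one_mul]

theorem trunc_convex (n : ℕ) (d : ℝ) : Convex ℝ (trunc n d) := by
  have : trunc n d = cross n 1 ∩ ⋂ i, {x | |x i| ≤ 1 - d} := by
    ext x; simp [trunc, cross]
  rw [this]
  exact (cross_convex n 1).inter (convex_iInter fun i => convexOn_abs i _)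

theorem trunc_interior (n : ℕ) {d : ℝ} :
    {x : EuclideanSpace ℝ (Fin n) | ∑ i, |x i| < 1 ∧ ∀ i, |x i| < 1 - d} ⊆ interior (trunc n d) := by
  refine interior_maximal (fun x hx => ⟨hx.1.le, fun i => (hx.2 i).le⟩) ?_
  have : {x : EuclideanSpace ℝ (Fin n) | ∑ i, |x i| < 1 ∧ ∀ i, |x i| < 1 - d} =
      {x | ∑ i, |x i| < 1} ∩ ⋂ i, {x | |x i| < 1 - d} := by
    ext x; simp
  rw [this]
  exact (isOpen_lt cont_sum continuous_const).inter
    (isOpen_iInter_of_finite fun i => isOpen_lt (cont_abs i) continuous_const)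

theorem trunc_int_nonempty (n : ℕ) {d : ℝ} (hd : d < 1) : (interior (trunc n d)).Nonempty :=
  ⟨0, trunc_interior n (by constructor <;> simp [hd])⟩

theorem cross_int_nonempty (n : ℕ) {r : ℝ} (hr : 0 < r) : (interior (cross n r)).Nonempty := by
  have h : {x : EuclideanSpace ℝ (Fin n) | ∑ i, |x i| < r} ⊆ interior (cross n r) :=
    interior_maximal (fun x hx => le_of_lt (mem_setOf_eq ▸ hx))
      (isOpen_lt cont_sum continuous_const)
  exact ⟨0, h (by simp [hr])⟩

theorem cross_neg (n : ℕ) (r : ℝ) : -cross n r = cross n r := by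
  ext x; simp [cross]

theorem trunc_neg (n : ℕ) (d : ℝ) : -trunc n d = trunc n d := by
  ext x; simp [trunc]

theorem mem_frontier_cross {n : ℕ} {r : ℝ} (hr : 0 < r) {x : EuclideanSpace ℝ (Fin n)}
    (hx : ∑ i, |x i| = r) : x ∈ frontier (cross n r) := by
  rw [(cross_closed n r).frontier_eq]
  refine ⟨hx.le, fun hint => ?_⟩
  have h1 : Filter.Tendsto (fun t : ℝ => (1 + t) • x) (nhds 0) (nhds x) := by
    have : Continuous fun t : ℝ => (1 + t) • x := by fun_prop
    have h := this.tendsto 0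
    simpa using h
  have h2 := h1.eventually (isOpen_interior.mem_nhds hint)
  obtain ⟨e, he, h3⟩ := Metric.eventually_nhds_iff.mp h2
  have h4 : (1 + e / 2) • x ∈ cross n r := by
    apply interior_subset
    apply h3
    rw [Real.dist_eq, sub_zero, abs_of_pos (by linarith)]
    linarith
  have h5 : ∑ i, |((1 + e / 2) • x) i| = (1 + e / 2) * r := by
    rw [← hx, Finset.mul_sum]
    refine Finset.sum_congr rfl fun i _ => ?_
    simp only [PiLp.smul_apply, smul_eq_mul, abs_mul]
    rw [abs_of_pos (by linarith : (0 : ℝ) < 1 + e / 2)]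
  have h6 : (1 + e / 2) * r ≤ r := by rw [← h5]; exact h4
  nlinarith

theorem frontier_trunc {m : ℕ} {d : ℝ} :
    frontier (trunc (m + 1) d) ⊆
      (⋃ s : Fin (m + 1) → Bool, (face s 1 ∩ {x | ∀ i, |x i| ≤ 1 - d})) ∪
      ⋃ i : Fin (m + 1), (sq i (1 - d) d ∪ sq i (-(1 - d)) d) := by
  intro x hx
  rw [(trunc_closed (m + 1) d).frontier_eq] at hx
  obtain ⟨h1, h2⟩ := hx
  have h3 : ¬ (∑ i, |x i| < 1 ∧ ∀ i, |x i| < 1 - d) := fun h => h2 (trunc_interior _ h)
  by_cases h4 : ∑ i, |x i| < 1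
  · right
    have h5 : ∃ i, ¬ |x i| < 1 - d := by
      by_contra h
      push Not at h
      exact h3 ⟨h4, h⟩
    obtain ⟨i, hi⟩ := h5
    have h6 : |x i| = 1 - d := le_antisymm (h1.2 i) (not_lt.mp hi)
    have h7 : ∑ j, |x (i.succAbove j)| ≤ d := by
      have h8 := h1.1
      rw [Fin.sum_univ_succAbove _ i, h6] at h8
      linarith
    rw [mem_iUnion]
    refine ⟨i, ?_⟩
    rcases abs_choice (x i) with h9 | h9
    · left; exact ⟨by rw [← h9, h6], h7⟩
    · right; exact ⟨by rw [← h6, h9, neg_neg], h7⟩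
  · left
    rw [mem_iUnion]
    refine ⟨fun i => decide (0 ≤ x i), ⟨fun i => ?_, ?_⟩, h1.2⟩
    · show 0 ≤ sg (decide (0 ≤ x i)) * x i
      rw [exists_sg]; exact abs_nonneg _
    · show ∑ i, sg (decide (0 ≤ x i)) * x i = 1
      rw [Finset.sum_congr rfl fun i _ => exists_sg (x i)]
      exact le_antisymm h1.1 (not_lt.mp h4)

/-- the barycentric direction -/
noncomputable def bary {n : ℕ} (s : Fin n → Bool) : EuclideanSpace ℝ (Fin n) :=
  WithLp.toLp 2 fun i => sg (s i)

theorem sum_sg_bary {n : ℕ} (s : Fin n → Bool) : ∑ i, sg (s i) * (bary s) i = n := by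
  simp [bary, sg_mul_self]

end W62.ASA
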