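import Mathlib
import Pool.Agent.W62.ASA.Geom

set_option maxHeartbeats 4000000

open MeasureTheory Measure Set Module
open scoped BigOperators ENNReal NNReal Pointwise

namespace W62.ASA

theorem dsx_sub_cross (m : ℕ) : dsx m ⊆ cross m 1 := by
  intro y hy
  show ∑ i, |y i| ≤ 1
  rw [Finset.sum_congr rfl fun i _ => abs_of_nonneg (hy.1 i)]
  exact hy.2

theorem dsx_lt_top (m : ℕ) : volume (dsx m) < ⊤ :=
  lt_of_le_of_lt (measure_mono (dsx_sub_cross m)) (cross_compact m 1).measure_lt_top

/-- reflection -/
noncomputable def rfx {m : ℕ} (s : Fin m → Bool) (y : EuclideanSpace ℝ (Fin m)) :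
    EuclideanSpace ℝ (Fin m) := WithLp.toLp 2 fun j => sg (s j) * y j

theorem rfx_isometry {m : ℕ} (s : Fin m → Bool) : Isometry (rfx s) := by
  refine Isometry.of_dist_eq fun x y => ?_
  rw [EuclideanSpace.dist_eq, EuclideanSpace.dist_eq]
  congr 1
  refine Finset.sum_congr rfl fun i _ => ?_
  rw [Real.dist_eq, Real.dist_eq, sq_abs, sq_abs]
  simp only [rfx]
  have := sg_mul_self (s i)
  linear_combination (x i - y i) ^ 2 * this

theorem vol_rfx {m : ℕ} (s : Fin m → Bool) (S : Set (EuclideanSpace ℝ (Fin m))) :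
    volume (rfx s '' S) = volume S := by
  rw [← EuclideanSpace.euclideanHausdorffMeasure_eq_volume]
  exact (rfx_isometry s).euclideanHausdorffMeasure_image S

theorem cross_cover (m : ℕ) : cross m 1 ⊆ ⋃ s : Fin m → Bool, rfx s '' dsx m := by
  intro x hx
  rw [mem_iUnion]
  refine ⟨fun i => decide (0 ≤ x i), rfx (fun i => decide (0 ≤ x i)) x, ⟨fun j => ?_, ?_⟩, ?_⟩
  · simp only [rfx]
    rw [exists_sg]; exact abs_nonneg _
  · simp only [rfx]
    rw [Finset.sum_congr rfl fun i _ => exists_sg (x i)]
    exact hx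
  · ext i
    simp only [rfx]
    rw [← mul_assoc, sg_mul_self, one_mul]

theorem cross_le (m : ℕ) : volume (cross m 1) ≤ 2 ^ m * volume (dsx m) := by
  calc volume (cross m 1) ≤ volume (⋃ s : Fin m → Bool, rfx s '' dsx m) :=
        measure_mono (cross_cover m)
    _ ≤ ∑ s : Fin m → Bool, volume (rfx s '' dsx m) := measure_iUnion_fintype_le _ _
    _ = 2 ^ m * volume (dsx m) := by
      rw [Finset.sum_congr rfl fun s _ => vol_rfx s _, Finset.sum_const, Finset.card_univ]
      simp

/-- a facet as an affine image of the solid simplex -/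
theorem face_eq {m : ℕ} (s : Fin (m + 1) → Bool) :
    face s 1 = (fun y => EuclideanSpace.single (Fin.last m) (sg (s (Fin.last m))) + y) ''
      (lc (ws fun i => sg (s i)) '' dsx m) := by
  have hco : ∀ (y : EuclideanSpace ℝ (Fin m)) (j : Fin m),
      (lc (ws fun i => sg (s i)) y) j.castSucc = sg (s j.castSucc) * y j := by
    intro y j
    rw [lc_apply]
    have : ∀ k : Fin m, (y k • ws (fun i => sg (s i)) k) j.castSucc =
        if k = j then sg (s j.castSucc) * y j else 0 := by
      intro k
      have h1 : j.castSucc ≠ Fin.last m := (Fin.castSucc_lt_last j).ne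
      by_cases hk : k = j
      · subst hk; simp [ws, h1, mul_comm]
      · have : j ≠ k := fun h => hk h.symm
        simp [ws, h1, hk, this]
    rw [show (∑ k, y k • ws (fun i => sg (s i)) k) j.castSucc =
      ∑ k, (y k • ws (fun i => sg (s i)) k) j.castSucc by simp]
    rw [Finset.sum_congr rfl fun k _ => this k]
    simp
  have hla : ∀ (y : EuclideanSpace ℝ (Fin m)),
      (lc (ws fun i => sg (s i)) y) (Fin.last m) = - sg (s (Fin.last m)) * ∑ j, y j := by
    intro y
    rw [lc_apply]
    have : ∀ k : Fin m, (y k • ws (fun i => sg (s i)) k) (Fin.last m) =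
        - sg (s (Fin.last m)) * y k := by
      intro k
      have h1 : Fin.last m ≠ k.castSucc := (Fin.castSucc_lt_last k).ne'
      simp [ws, h1]
      ring
    rw [show (∑ k, y k • ws (fun i => sg (s i)) k) (Fin.last m) =
      ∑ k, (y k • ws (fun i => sg (s i)) k) (Fin.last m) by simp]
    rw [Finset.sum_congr rfl fun k _ => this k, Finset.mul_sum]
  ext x
  constructor
  · rintro ⟨h1, h2⟩
    rw [Fin.sum_univ_castSucc] at h2
    set y : EuclideanSpace ℝ (Fin m) := WithLp.toLp 2 fun j => sg (s j.castSucc) * x j.castSucc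
      with hy
    have hs : ∑ j, y j = 1 - sg (s (Fin.last m)) * x (Fin.last m) := by
      simp only [hy]; linarith
    refine ⟨_, ⟨y, ⟨fun j => h1 j.castSucc, ?_⟩, rfl⟩, ?_⟩
    · rw [hs]; linarith [h1 (Fin.last m)]
    · ext i
      simp only [PiLp.add_apply]
      refine Fin.lastCases ?_ (fun j => ?_) i
      · rw [hla, hs]
        have := sg_mul_self (s (Fin.last m))
        simp only [PiLp.single_apply, if_true]
        linear_combination (x (Fin.last m)) * this
      · rw [hco]
        have h1 : j.castSucc ≠ Fin.last m := (Fin.castSucc_lt_last j).ne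
        have := sg_mul_self (s j.castSucc)
        simp only [PiLp.single_apply, if_neg h1, hy]
        linear_combination (x j.castSucc) * this
  · rintro ⟨_, ⟨y, ⟨h1, h2⟩, rfl⟩, rfl⟩
    have hv1 : ∀ j : Fin m, ((fun y => EuclideanSpace.single (Fin.last m) (sg (s (Fin.last m))) + y)
        (lc (ws fun i => sg (s i)) y)) j.castSucc = sg (s j.castSucc) * y j := by
      intro j
      have h1 : j.castSucc ≠ Fin.last m := (Fin.castSucc_lt_last j).ne
      simp only [PiLp.add_apply, PiLp.single_apply, if_neg h1]
      rw [hco, zero_add]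
    have hv2 : ((fun y => EuclideanSpace.single (Fin.last m) (sg (s (Fin.last m))) + y)
        (lc (ws fun i => sg (s i)) y)) (Fin.last m) =
        sg (s (Fin.last m)) * (1 - ∑ j, y j) := by
      simp only [PiLp.add_apply, PiLp.single_apply, if_true]
      rw [hla]; ring
    constructor
    · intro i
      refine Fin.lastCases ?_ (fun j => ?_) i
      · rw [hv2, ← mul_assoc, sg_mul_self, one_mul]; linarith
      · rw [hv1, ← mul_assoc, sg_mul_self, one_mul]; exact h1 j
    · rw [Fin.sum_univ_castSucc, hv2, ← mul_assoc, sg_mul_self, one_mul]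
      have : ∀ j : Fin m, sg (s j.castSucc) *
          ((fun y => EuclideanSpace.single (Fin.last m) (sg (s (Fin.last m))) + y)
        (lc (ws fun i => sg (s i)) y)) j.castSucc = y j := by
        intro j
        rw [hv1, ← mul_assoc, sg_mul_self, one_mul]
      rw [Finset.sum_congr rfl fun j _ => this j]
      ring

theorem sq_eq {m : ℕ} (i : Fin (m + 1)) : sq i 0 1 = lc (wi i) '' cross m 1 := by
  have hco : ∀ (y : EuclideanSpace ℝ (Fin m)) (j : Fin m),
      (lc (wi i) y) (i.succAbove j) = y j := by
    intro y j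
    rw [lc_apply]
    have : ∀ k : Fin m, (y k • wi i k) (i.succAbove j) = if k = j then y j else 0 := by
      intro k
      by_cases hk : k = j
      · subst hk; simp [wi]
      · have : j ≠ k := fun h => hk h.symm
        simp [wi, hk, this]
    rw [show (∑ k, y k • wi i k) (i.succAbove j) =
      ∑ k, (y k • wi i k) (i.succAbove j) by simp]
    rw [Finset.sum_congr rfl fun k _ => this k]
    simp
  have hla : ∀ (y : EuclideanSpace ℝ (Fin m)), (lc (wi i) y) i = 0 := by
    intro y
    rw [lc_apply]
    have : ∀ k : Fin m, (y k • wi i k) i = 0 := by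
      intro k
      have h1 : i ≠ i.succAbove k := (Fin.succAbove_ne i k).symm
      simp [wi, h1]
    rw [show (∑ k, y k • wi i k) i = ∑ k, (y k • wi i k) i by simp]
    rw [Finset.sum_congr rfl fun k _ => this k]
    simp
  ext x
  constructor
  · rintro ⟨h1, h2⟩
    refine ⟨WithLp.toLp 2 fun j => x (i.succAbove j), h2, ?_⟩
    ext k
    rcases Fin.eq_self_or_eq_succAbove i k with h | ⟨j, h⟩
    · rw [h, hla, h1]
    · rw [h, hco]
  · rintro ⟨y, hy, rfl⟩
    refine ⟨hla y, ?_⟩
    rw [Finset.sum_congr rfl fun j _ => by rw [hco y j]]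
    exact hy

end W62.ASA
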