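import Mathlib
import Pool.Agent.W62.ASA.Meas

set_option maxHeartbeats 4000000

open MeasureTheory Measure Set Module
open scoped BigOperators ENNReal NNReal Pointwise

namespace W62.ASA

variable {m : ℕ}

/-- pull-back of surface measure by a linear automorphism -/
noncomputable def nu (L : EuclideanSpace ℝ (Fin (m + 1)) ≃ₗ[ℝ] EuclideanSpace ℝ (Fin (m + 1))) :
    Measure (EuclideanSpace ℝ (Fin (m + 1))) := Measure.comap L μHE[m]

variable (L : EuclideanSpace ℝ (Fin (m + 1)) ≃ₗ[ℝ] EuclideanSpace ℝ (Fin (m + 1)))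

theorem nu_apply (S : Set (EuclideanSpace ℝ (Fin (m + 1)))) : nu L S = μHE[m] (L '' S) := by
  have h : MeasurableEmbedding (L : EuclideanSpace ℝ (Fin (m + 1)) → _) :=
    L.toContinuousLinearEquiv.toHomeomorph.measurableEmbedding
  exact h.comap_apply _ _

theorem nu_aff (p : EuclideanSpace ℝ (Fin (m + 1))) {k : ℝ} (hk : 0 < k)
    (S : Set (EuclideanSpace ℝ (Fin (m + 1)))) :
    nu L ((fun x => p + k • x) '' S) = ENNReal.ofReal (k ^ m) * nu L S := by
  rw [nu_apply, nu_apply]
  have h1 : L '' ((fun x => p + k • x) '' S) = (fun x => L p + x) '' (k • (L '' S)) := by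
    ext y
    constructor
    · rintro ⟨_, ⟨x, hx, rfl⟩, rfl⟩
      exact ⟨k • L x, ⟨L x, ⟨x, hx, rfl⟩, rfl⟩, by simp⟩
    · rintro ⟨_, ⟨_, ⟨x, hx, rfl⟩, rfl⟩, rfl⟩
      exact ⟨_, ⟨x, hx, rfl⟩, by simp⟩
  rw [h1, (isometry_add_left (L p)).euclideanHausdorffMeasure_image,
    euclideanHausdorffMeasure_smul₀ m hk.ne']
  rw [ENNReal.smul_def, smul_eq_mul]
  congr 1
  rw [ENNReal.ofReal, ENNReal.coe_inj]
  apply NNReal.eq
  rw [Real.coe_toNNReal _ (by positivity)]
  simp [abs_of_pos hk]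

theorem hausd_lc (L' : EuclideanSpace ℝ (Fin (m + 1)) →ₗ[ℝ] EuclideanSpace ℝ (Fin (m + 1)))
    (w : Fin m → EuclideanSpace ℝ (Fin (m + 1))) (S : Set (EuclideanSpace ℝ (Fin m))) :
    μHE[m] ((L' ∘ₗ lc w) '' S) = ENNReal.ofReal (L' ∘ₗ lc w).normDet * volume S := by
  have h := LinearMap.euclideanHausdorffMeasure_image_eq_normDet_mul_volume (L' ∘ₗ lc w) S
  rw [finrank_euclideanSpace_fin] at h
  exact h

theorem nu_face (s : Fin (m + 1) → Bool) :
    nu L (face s 1) = ENNReal.ofReal ‖∑ i, sg (s i) • av L.toLinearMap i‖ *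
      volume (dsx m) := by
  have h := nu_aff L (EuclideanSpace.single (Fin.last m) (sg (s (Fin.last m)))) one_pos
    (lc (ws fun i => sg (s i)) '' dsx m)
  simp only [one_smul, one_pow, ENNReal.ofReal_one, one_mul] at h
  rw [face_eq, h, nu_apply, ← normDet_ws _ _ fun i => sg_mul_self (s i), ← hausd_lc]
  congr 1
  rw [← image_comp]; rfl

theorem nu_sq (i : Fin (m + 1)) :
    nu L (sq i 0 1) = ENNReal.ofReal ‖av L.toLinearMap i‖ * volume (cross m 1) := by
  rw [sq_eq, nu_apply, ← normDet_wi, ← hausd_lc]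
  congr 1
  rw [← image_comp]; rfl

theorem nu_face_lt_top (s : Fin (m + 1) → Bool) : nu L (face s 1) < ⊤ := by
  rw [nu_face]
  exact ENNReal.mul_lt_top ENNReal.ofReal_lt_top (dsx_lt_top m)

/-- the corner copies -/
noncomputable def cpy (s : Fin (m + 1) → Bool) (k d : ℝ) (i : Fin (m + 1)) :
    Set (EuclideanSpace ℝ (Fin (m + 1))) :=
  (fun x => (EuclideanSpace.single i ((1 - d) * sg (s i)) +
    ((d - k) / ((m : ℝ) + 1)) • bary s) + k • x) '' face s 1

theorem aff_closed (p : EuclideanSpace ℝ (Fin (m + 1))) {k : ℝ} (hk : 0 < k)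
    {S : Set (EuclideanSpace ℝ (Fin (m + 1)))} (hS : IsClosed S) :
    IsClosed ((fun x => p + k • x) '' S) := by
  have := ((Homeomorph.smulOfNeZero (α := EuclideanSpace ℝ (Fin (m + 1))) k hk.ne').trans
    (Homeomorph.addLeft p)).isClosedMap S hS
  exact this

theorem cpy_coord (s : Fin (m + 1) → Bool) {k d : ℝ} (i : Fin (m + 1))
    (x : EuclideanSpace ℝ (Fin (m + 1))) (j : Fin (m + 1)) :
    sg (s j) * (((EuclideanSpace.single i ((1 - d) * sg (s i)) +
    ((d - k) / ((m : ℝ) + 1)) • bary s) + k • x) j) =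
      (if j = i then (1 - d) else 0) + (d - k) / ((m : ℝ) + 1) + k * (sg (s j) * x j) := by
  have h := sg_mul_self (s j)
  simp only [PiLp.add_apply, PiLp.smul_apply, bary, smul_eq_mul, PiLp.single_apply]
  by_cases hj : j = i
  · subst hj
    simp only [if_true]
    linear_combination (1 - d + (d - k) / ((m : ℝ) + 1)) * h
  · simp only [if_neg hj]
    linear_combination ((d - k) / ((m : ℝ) + 1)) * h

theorem cpy_props (s : Fin (m + 1) → Bool) {k d : ℝ} (hk : 0 < k) (hkd : k < d) (hd : d < 1 / 2)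
    (i : Fin (m + 1)) {z : EuclideanSpace ℝ (Fin (m + 1))} (hz : z ∈ cpy s k d i) :
    z ∈ face s 1 ∧ 1 - d < sg (s i) * z i := by
  obtain ⟨x, hx, rfl⟩ := hz
  have hpos : 0 < (d - k) / ((m : ℝ) + 1) := div_pos (by linarith) (by positivity)
  refine ⟨⟨fun j => ?_, ?_⟩, ?_⟩
  · rw [cpy_coord]
    have h1 := mul_nonneg hk.le (hx.1 j)
    split_ifs <;> linarith
  · rw [Finset.sum_congr rfl fun j _ => cpy_coord s i x j, Finset.sum_add_distrib,
      Finset.sum_add_distrib, ← Finset.mul_sum, hx.2]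
    simp only [Finset.sum_ite_eq', Finset.mem_univ, if_true, Finset.sum_const, Finset.card_univ,
      Fintype.card_fin, nsmul_eq_mul]
    push_cast
    field_simp
    ring
  · rw [cpy_coord]
    have h1 := mul_nonneg hk.le (hx.1 i)
    simp only [if_true]
    linarith

theorem H_bound (s : Fin (m + 1) → Bool) {k d : ℝ} (hk : 0 < k) (hkd : k < d) (hd : d < 1 / 2) :
    nu L (face s 1 ∩ {x | ∀ i, |x i| ≤ 1 - d}) +
      ((m : ℝ≥0∞) + 1) * (ENNReal.ofReal (k ^ m) * nu L (face s 1)) ≤ nu L (face s 1) := by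
  have hmeas : ∀ i, MeasurableSet (cpy s k d i) := fun i =>
    (aff_closed _ hk (face_closed s 1)).measurableSet
  have hdisj : Pairwise (Function.onFun Disjoint (cpy s k d)) := by
    intro i j hij
    rw [Function.onFun, Set.disjoint_left]
    intro z hzi hzj
    obtain ⟨h1, h2⟩ := cpy_props s hk hkd hd i hzi
    obtain ⟨-, h3⟩ := cpy_props s hk hkd hd j hzj
    have h4 : sg (s i) * z i + sg (s j) * z j ≤ ∑ l, sg (s l) * z l := by
      have h5 := Finset.add_sum_erase Finset.univ (fun l => sg (s l) * z l) (Finset.mem_univ i)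
      have h6 : sg (s j) * z j ≤ ∑ l ∈ Finset.univ.erase i, sg (s l) * z l :=
        Finset.single_le_sum (f := fun l => sg (s l) * z l) (fun l _ => h1.1 l)
          (Finset.mem_erase.mpr ⟨hij.symm, Finset.mem_univ j⟩)
      linarith
    rw [h1.2] at h4
    linarith
  have hcpy : ∀ i, nu L (cpy s k d i) = ENNReal.ofReal (k ^ m) * nu L (face s 1) := fun i =>
    nu_aff L _ hk _
  have h1 : nu L (⋃ i, cpy s k d i) =
      ((m : ℝ≥0∞) + 1) * (ENNReal.ofReal (k ^ m) * nu L (face s 1)) := by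
    rw [measure_iUnion hdisj hmeas, tsum_fintype, Finset.sum_congr rfl fun i _ => hcpy i,
      Finset.sum_const, Finset.card_univ, Fintype.card_fin, nsmul_eq_mul]
    push_cast
    rfl
  rw [← h1, ← measure_union _ (MeasurableSet.iUnion hmeas)]
  · refine measure_mono (union_subset inter_subset_left (iUnion_subset fun i => ?_))
    intro z hz
    exact (cpy_props s hk hkd hd i hz).1
  · rw [Set.disjoint_left]
    rintro z ⟨h2, h3⟩ h4
    rw [mem_iUnion] at h4
    obtain ⟨i, hi⟩ := h4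
    have h5 := (cpy_props s hk hkd hd i hi).2
    have h6 := h3 i
    rw [abs_of_sg (h2.1 i)] at h6
    linarith

theorem nu_sq_le (i : Fin (m + 1)) (c : ℝ) {d : ℝ} (hd : 0 < d) :
    nu L (sq i c d) ≤ ENNReal.ofReal (d ^ m) * nu L (sq i 0 1) := by
  rw [← nu_aff L (EuclideanSpace.single i c) hd]
  refine measure_mono fun x hx => ?_
  refine ⟨d⁻¹ • (x - EuclideanSpace.single i c), ⟨?_, ?_⟩, ?_⟩
  · simp [hx.1]
  · have h1 : ∀ j, |(d⁻¹ • (x - EuclideanSpace.single i c)) (i.succAbove j)| =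
        d⁻¹ * |x (i.succAbove j)| := by
      intro j
      have h2 : i.succAbove j ≠ i := Fin.succAbove_ne i j
      simp [h2, abs_mul, abs_of_pos hd]
    rw [Finset.sum_congr rfl fun j _ => h1 j, ← Finset.mul_sum]
    calc d⁻¹ * ∑ j, |x (i.succAbove j)| ≤ d⁻¹ * d := by
          gcongr
          exact hx.2
      _ = 1 := inv_mul_cancel₀ hd.ne'
  · show EuclideanSpace.single i c + d • (d⁻¹ • (x - EuclideanSpace.single i c)) = x
    rw [smul_inv_smul₀ hd.ne']
    abel

/-- upper bound for the truncated body -/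
theorem upper {k d : ℝ} (hk : 0 < k) (hkd : k < d) (hd : d < 1 / 2)
    (hsm : ((m : ℝ) + 1) * k ^ m ≤ 1) :
    nu L (frontier (trunc (m + 1) d)) ≤
      ENNReal.ofReal ((1 - ((m : ℝ) + 1) * k ^ m) *
          ∑ s : Fin (m + 1) → Bool, ‖∑ i, sg (s i) • av L.toLinearMap i‖ +
        (2 : ℝ) ^ (m + 1) * d ^ m * ∑ i, ‖av L.toLinearMap i‖) * volume (dsx m) := by
  have hd0 : 0 < d := hk.trans hkd
  have hH : ∀ s : Fin (m + 1) → Bool, nu L (face s 1 ∩ {x | ∀ i, |x i| ≤ 1 - d}) ≤
      ENNReal.ofReal ((1 - ((m : ℝ) + 1) * k ^ m) * ‖∑ i, sg (s i) • av L.toLinearMap i‖) *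
        volume (dsx m) := by
    intro s
    have h1 := H_bound L s hk hkd hd
    have hJ := nu_face_lt_top L s
    have h2 : ((m : ℝ≥0∞) + 1) * (ENNReal.ofReal (k ^ m) * nu L (face s 1)) =
        ENNReal.ofReal (((m : ℝ) + 1) * k ^ m) * nu L (face s 1) := by
      rw [ENNReal.ofReal_mul (by positivity), mul_assoc]
      congr 1
      rw [ENNReal.ofReal_add (by positivity) (by norm_num)]
      simp
    have h3 : nu L (face s 1) = ENNReal.ofReal (1 - ((m : ℝ) + 1) * k ^ m) * nu L (face s 1) +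
        ENNReal.ofReal (((m : ℝ) + 1) * k ^ m) * nu L (face s 1) := by
      rw [← add_mul, ← ENNReal.ofReal_add (by linarith) (by positivity)]
      simp
    rw [h2] at h1
    have h4 : nu L (face s 1 ∩ {x | ∀ i, |x i| ≤ 1 - d}) ≤
        ENNReal.ofReal (1 - ((m : ℝ) + 1) * k ^ m) * nu L (face s 1) := by
      have h5 : nu L (face s 1 ∩ {x | ∀ i, |x i| ≤ 1 - d}) +
          ENNReal.ofReal (((m : ℝ) + 1) * k ^ m) * nu L (face s 1) ≤
          ENNReal.ofReal (1 - ((m : ℝ) + 1) * k ^ m) * nu L (face s 1) +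
          ENNReal.ofReal (((m : ℝ) + 1) * k ^ m) * nu L (face s 1) := by
        rw [← h3]; exact h1
      exact (ENNReal.add_le_add_iff_right
        (ENNReal.mul_lt_top ENNReal.ofReal_lt_top hJ).ne).mp h5
    refine h4.trans (le_of_eq ?_)
    rw [nu_face, ← mul_assoc, ← ENNReal.ofReal_mul (by linarith)]
  have hQ : ∀ i : Fin (m + 1), nu L (sq i (1 - d) d ∪ sq i (-(1 - d)) d) ≤
      ENNReal.ofReal ((2 : ℝ) ^ (m + 1) * d ^ m * ‖av L.toLinearMap i‖) * volume (dsx m) := by
    intro i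
    have h1 : ∀ c, nu L (sq i c d) ≤
        ENNReal.ofReal ((2 : ℝ) ^ m * d ^ m * ‖av L.toLinearMap i‖) * volume (dsx m) := by
      intro c
      refine (nu_sq_le L i c hd0).trans ?_
      rw [nu_sq]
      calc ENNReal.ofReal (d ^ m) * (ENNReal.ofReal ‖av L.toLinearMap i‖ * volume (cross m 1))
          ≤ ENNReal.ofReal (d ^ m) * (ENNReal.ofReal ‖av L.toLinearMap i‖ *
            (2 ^ m * volume (dsx m))) := by
            gcongr
            exact cross_le m
        _ = _ := by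
          rw [ENNReal.ofReal_mul (by positivity), ENNReal.ofReal_mul (by positivity)]
          have : ENNReal.ofReal ((2 : ℝ) ^ m) = 2 ^ m := by
            rw [ENNReal.ofReal_pow (by norm_num)]; simp
          rw [this]
          ring
    calc nu L (sq i (1 - d) d ∪ sq i (-(1 - d)) d)
        ≤ nu L (sq i (1 - d) d) + nu L (sq i (-(1 - d)) d) := measure_union_le _ _
      _ ≤ _ := add_le_add (h1 _) (h1 _)
      _ = _ := by
        rw [← add_mul, ← ENNReal.ofReal_add (by positivity) (by positivity)]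
        congr 2
        ring
  calc nu L (frontier (trunc (m + 1) d))
      ≤ nu L ((⋃ s : Fin (m + 1) → Bool, (face s 1 ∩ {x | ∀ i, |x i| ≤ 1 - d})) ∪
      ⋃ i : Fin (m + 1), (sq i (1 - d) d ∪ sq i (-(1 - d)) d)) := measure_mono frontier_trunc
    _ ≤ nu L (⋃ s : Fin (m + 1) → Bool, (face s 1 ∩ {x | ∀ i, |x i| ≤ 1 - d})) +
      nu L (⋃ i : Fin (m + 1), (sq i (1 - d) d ∪ sq i (-(1 - d)) d)) := measure_union_le _ _
    _ ≤ (∑ s : Fin (m + 1) → Bool, nu L (face s 1 ∩ {x | ∀ i, |x i| ≤ 1 - d})) +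
      ∑ i : Fin (m + 1), nu L (sq i (1 - d) d ∪ sq i (-(1 - d)) d) :=
        add_le_add (measure_iUnion_fintype_le _ _) (measure_iUnion_fintype_le _ _)
    _ ≤ (∑ s : Fin (m + 1) → Bool, ENNReal.ofReal ((1 - ((m : ℝ) + 1) * k ^ m) *
          ‖∑ i, sg (s i) • av L.toLinearMap i‖) * volume (dsx m)) +
      ∑ i : Fin (m + 1), ENNReal.ofReal ((2 : ℝ) ^ (m + 1) * d ^ m *
          ‖av L.toLinearMap i‖) * volume (dsx m) :=
        add_le_add (Finset.sum_le_sum fun s _ => hH s) (Finset.sum_le_sum fun i _ => hQ i)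
    _ = _ := by
      rw [← Finset.sum_mul, ← Finset.sum_mul, ← add_mul]
      congr 1
      rw [← ENNReal.ofReal_sum_of_nonneg, ← ENNReal.ofReal_sum_of_nonneg, ← ENNReal.ofReal_add,
        Finset.mul_sum, Finset.mul_sum]
      · exact Finset.sum_nonneg fun s _ => mul_nonneg (by linarith) (norm_nonneg _)
      · exact Finset.sum_nonneg fun s _ => mul_nonneg (by positivity) (norm_nonneg _)
      · exact fun s _ => mul_nonneg (by positivity) (norm_nonneg _)
      · exact fun s _ => mul_nonneg (by linarith) (norm_nonneg _)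

/-- lower bound for the cross-polytope -/
theorem lower {q r : ℝ} (hq : 0 < q) (hqr : q < r) :
    ENNReal.ofReal (q ^ m * ∑ s : Fin (m + 1) → Bool, ‖∑ i, sg (s i) • av L.toLinearMap i‖) *
      volume (dsx m) ≤ nu L (frontier (cross (m + 1) r)) := by
  set G : (Fin (m + 1) → Bool) → Set (EuclideanSpace ℝ (Fin (m + 1))) := fun s =>
    (fun x => ((r - q) / ((m : ℝ) + 1)) • bary s + q • x) '' face s 1 with hG
  have hpos : 0 < (r - q) / ((m : ℝ) + 1) := div_pos (by linarith) (by positivity)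
  have hmeas : ∀ s, MeasurableSet (G s) := fun s =>
    (aff_closed _ hq (face_closed s 1)).measurableSet
  have hco : ∀ (s : Fin (m + 1) → Bool) (x : EuclideanSpace ℝ (Fin (m + 1))) (j : Fin (m + 1)),
      sg (s j) * ((((r - q) / ((m : ℝ) + 1)) • bary s + q • x) j) =
        (r - q) / ((m : ℝ) + 1) + q * (sg (s j) * x j) := by
    intro s x j
    have h := sg_mul_self (s j)
    simp only [PiLp.add_apply, PiLp.smul_apply, bary, smul_eq_mul]
    linear_combination ((r - q) / ((m : ℝ) + 1)) * h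
  have hz : ∀ s, ∀ z ∈ G s, (∀ j, 0 < sg (s j) * z j) ∧ ∑ j, sg (s j) * z j = r := by
    rintro s _ ⟨x, hx, rfl⟩
    refine ⟨fun j => ?_, ?_⟩
    · rw [hco]
      have h1 := mul_nonneg hq.le (hx.1 j)
      linarith
    · rw [Finset.sum_congr rfl fun j _ => hco s x j, Finset.sum_add_distrib, ← Finset.mul_sum, hx.2]
      simp only [Finset.sum_const, Finset.card_univ, Fintype.card_fin, nsmul_eq_mul]
      push_cast
      field_simp
      ring
  have hdisj : Pairwise (Function.onFun Disjoint G) := by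
    intro s t hst
    rw [Function.onFun, Set.disjoint_left]
    intro z h1 h2
    apply hst
    ext j
    have h3 := (hz s z h1).1 j
    have h4 := (hz t z h2).1 j
    cases hs : s j <;> cases ht : t j <;> simp [hs, ht, sg] at h3 h4 ⊢ <;> linarith
  have hsub : (⋃ s, G s) ⊆ frontier (cross (m + 1) r) := by
    intro z h1
    rw [mem_iUnion] at h1
    obtain ⟨s, hs⟩ := h1
    refine mem_frontier_cross (hq.trans hqr) ?_
    rw [← (hz s z hs).2]
    exact Finset.sum_congr rfl fun j _ => abs_of_sg ((hz s z hs).1 j).le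
  refine le_trans (le_of_eq ?_) (measure_mono hsub)
  rw [measure_iUnion hdisj hmeas, tsum_fintype]
  have h1 : ∀ s, nu L (G s) = ENNReal.ofReal (q ^ m * ‖∑ i, sg (s i) • av L.toLinearMap i‖) *
      volume (dsx m) := by
    intro s
    rw [hG, nu_aff L _ hq, nu_face, ← mul_assoc, ← ENNReal.ofReal_mul (by positivity)]
  rw [Finset.sum_congr rfl fun s _ => h1 s, ← Finset.sum_mul, ← ENNReal.ofReal_sum_of_nonneg,
    Finset.mul_sum]
  exact fun s _ => mul_nonneg (by positivity) (norm_nonneg _)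

end W62.ASA
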