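import Mathlib
import Pool.Agent.W62.ASA.Ineq

set_option maxHeartbeats 4000000

open MeasureTheory Measure Set Module
open scoped BigOperators ENNReal NNReal Pointwise

namespace W62.ASA

theorem cross_smul (n : ℕ) {r : ℝ} (hr : 0 < r) : cross n r = r • cross n 1 := by
  ext x
  rw [mem_smul_set_iff_inv_smul_mem₀ hr.ne']
  simp only [cross, mem_ofPred_eq, PiLp.smul_apply, smul_eq_mul, abs_mul, ← Finset.mul_sum,
    abs_of_pos (inv_pos.mpr hr)]
  rw [inv_mul_le_iff₀ hr, mul_one]

theorem vol_cross (n : ℕ) {r : ℝ} (hr : 0 < r) :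
    volume (cross n r) = ENNReal.ofReal (r ^ n) * volume (cross n 1) := by
  rw [cross_smul n hr, Measure.addHaar_smul, finrank_euclideanSpace_fin,
    abs_of_pos (pow_pos hr n)]

theorem cover {m : ℕ} {d : ℝ} : cross (m + 1) 1 ⊆ trunc (m + 1) d ∪
    ⋃ i : Fin (m + 1), ((fun x => EuclideanSpace.single i (1 - d) + x) '' cross (m + 1) d ∪
      (fun x => EuclideanSpace.single i (-(1 - d)) + x) '' cross (m + 1) d) := by
  intro x hx
  have hx' : ∑ i, |x i| ≤ 1 := hx
  by_cases h : ∀ i, |x i| ≤ 1 - d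
  · left; exact ⟨hx, h⟩
  · right
    push Not at h
    obtain ⟨i, hi⟩ := h
    rw [mem_iUnion]
    refine ⟨i, ?_⟩
    rw [Fin.sum_univ_succAbove _ i] at hx'
    have hgen : ∀ c : ℝ, |x i - c| = |x i| - (1 - d) →
        x ∈ (fun x => EuclideanSpace.single i c + x) '' cross (m + 1) d := by
      intro c hc
      refine ⟨x - EuclideanSpace.single i c, ?_, by simp⟩
      show ∑ j, |(x - EuclideanSpace.single i c) j| ≤ d
      rw [Fin.sum_univ_succAbove _ i]
      have h1 : ∀ j, |(x - EuclideanSpace.single i c) (i.succAbove j)| = |x (i.succAbove j)| := by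
        intro j
        have h2 : i.succAbove j ≠ i := Fin.succAbove_ne i j
        simp [h2]
      rw [Finset.sum_congr rfl fun j _ => h1 j]
      have h3 : (x - EuclideanSpace.single i c) i = x i - c := by simp
      rw [h3, hc]
      linarith
    rcases le_or_gt 0 (x i) with h0 | h0
    · left
      rw [abs_of_nonneg h0] at hi
      apply hgen
      rw [abs_of_nonneg h0, abs_of_nonneg (by linarith)]
    · right
      rw [abs_of_neg h0] at hi
      apply hgen
      rw [abs_of_neg h0, abs_of_nonpos (by linarith)]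
      ring

theorem vol_trunc {m : ℕ} {d : ℝ} (hd : 0 < d) :
    volume (cross (m + 1) 1) ≤ volume (trunc (m + 1) d) +
      ENNReal.ofReal (2 * ((m : ℝ) + 1) * d ^ (m + 1)) * volume (cross (m + 1) 1) := by
  have h1 : ∀ c (i : Fin (m + 1)), volume ((fun x => EuclideanSpace.single i c + x) ''
      cross (m + 1) d) = ENNReal.ofReal (d ^ (m + 1)) * volume (cross (m + 1) 1) := by
    intro c i
    rw [← vol_cross _ hd]
    have := measure_vadd (volume : Measure (EuclideanSpace ℝ (Fin (m + 1))))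
      (EuclideanSpace.single i c) (cross (m + 1) d)
    exact this
  calc volume (cross (m + 1) 1) ≤ _ := measure_mono cover
    _ ≤ volume (trunc (m + 1) d) + volume (⋃ i : Fin (m + 1),
      ((fun x => EuclideanSpace.single i (1 - d) + x) '' cross (m + 1) d ∪
      (fun x => EuclideanSpace.single i (-(1 - d)) + x) '' cross (m + 1) d)) :=
        measure_union_le _ _
    _ ≤ volume (trunc (m + 1) d) + ∑ i : Fin (m + 1), volume
      ((fun x => EuclideanSpace.single i (1 - d) + x) '' cross (m + 1) d ∪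
      (fun x => EuclideanSpace.single i (-(1 - d)) + x) '' cross (m + 1) d) := by
        gcongr
        exact measure_iUnion_fintype_le _ _
    _ ≤ volume (trunc (m + 1) d) + ∑ _i : Fin (m + 1),
        (ENNReal.ofReal (d ^ (m + 1)) * volume (cross (m + 1) 1) +
          ENNReal.ofReal (d ^ (m + 1)) * volume (cross (m + 1) 1)) := by
        gcongr with i hi
        refine (measure_union_le _ _).trans (le_of_eq ?_)
        rw [h1, h1]
    _ = _ := by
        congr 1
        rw [Finset.sum_const, Finset.card_univ, Fintype.card_fin, nsmul_eq_mul]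
        rw [← two_mul, ← mul_assoc, ← mul_assoc]
        congr 1
        rw [ENNReal.ofReal_mul (by positivity), ENNReal.ofReal_mul (by norm_num),
          ENNReal.ofReal_add (by positivity) (by norm_num)]
        push_cast
        simp
        ring

theorem frontier_cross_sub {n : ℕ} {r : ℝ} :
    frontier (cross n r) ⊆ ⋃ s : Fin n → Bool, face s r := by
  intro x hx
  rw [(cross_closed n r).frontier_eq] at hx
  obtain ⟨h1, h2⟩ := hx
  have h3 : ¬ (∑ i, |x i| < r) := by
    intro h
    have h4 : {x : EuclideanSpace ℝ (Fin n) | ∑ i, |x i| < r} ⊆ interior (cross n r) :=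
      interior_maximal (fun x hx => le_of_lt (mem_ofPred_eq ▸ hx))
        (isOpen_lt cont_sum continuous_const)
    exact h2 (h4 h)
  rw [mem_iUnion]
  refine ⟨fun i => decide (0 ≤ x i), fun i => ?_, ?_⟩
  · show 0 ≤ sg (decide (0 ≤ x i)) * x i
    rw [exists_sg]; exact abs_nonneg _
  · show ∑ i, sg (decide (0 ≤ x i)) * x i = r
    rw [Finset.sum_congr rfl fun i _ => exists_sg (x i)]
    exact le_antisymm h1 (not_lt.mp h3)

theorem nu_cross_lt_top {m : ℕ}
    (L : EuclideanSpace ℝ (Fin (m + 1)) ≃ₗ[ℝ] EuclideanSpace ℝ (Fin (m + 1)))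
    {r : ℝ} (hr : 0 < r) : nu L (frontier (cross (m + 1) r)) < ⊤ := by
  refine lt_of_le_of_lt (measure_mono frontier_cross_sub) ?_
  refine lt_of_le_of_lt (measure_iUnion_fintype_le _ _) ?_
  refine ENNReal.sum_lt_top.mpr fun s _ => ?_
  have h1 : face s r ⊆ (fun x => 0 + r • x) '' face s 1 := by
    intro x hx
    refine ⟨r⁻¹ • x, ⟨fun i => ?_, ?_⟩, by simp [smul_inv_smul₀ hr.ne']⟩
    · have := mul_nonneg (inv_pos.mpr hr).le (hx.1 i)
      simp only [PiLp.smul_apply, smul_eq_mul]
      linarith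
    · have h2 : ∀ i, sg (s i) * (r⁻¹ • x) i = r⁻¹ * (sg (s i) * x i) := by
        intro i
        simp only [PiLp.smul_apply, smul_eq_mul]
        ring
      rw [Finset.sum_congr rfl fun i _ => h2 i, ← Finset.mul_sum, hx.2]
      exact inv_mul_cancel₀ hr.ne'
  refine lt_of_le_of_lt (measure_mono h1) ?_
  rw [nu_aff L 0 hr]
  exact ENNReal.mul_lt_top ENNReal.ofReal_lt_top (nu_face_lt_top L s)

/-- numerical facts -/
theorem numbers (m : ℕ) (hm : 2 ≤ m) : ∃ k d q r : ℝ, 0 < k ∧ k < d ∧ d < 1 / 2 ∧ 0 < q ∧ q < r ∧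
    ((m : ℝ) + 1) * k ^ m ≤ 1 ∧
    1 - ((m : ℝ) + 1) * k ^ m + 2 / 3 * ((m : ℝ) + 1) * d ^ m ≤ q ^ m ∧
    r ^ (m + 1) < 1 - 2 * ((m : ℝ) + 1) * d ^ (m + 1) := by
  have hmR : (2 : ℝ) ≤ m := by exact_mod_cast hm
  set d : ℝ := 1 / 100 with hd
  set D : ℝ := d ^ m with hD
  have hDpos : 0 < D := by positivity
  have hD1 : ((m : ℝ) + 1) * D ≤ 1 := by
    have h1 : ((m : ℝ) + 1) ≤ 100 ^ m := by
      have := one_add_mul_le_pow (a := (99 : ℝ)) (by norm_num) m
      have h2 : (1 + 99 : ℝ) = 100 := by norm_num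
      rw [h2] at this
      nlinarith
    have h3 : D * 100 ^ m = 1 := by
      rw [hD, hd, ← mul_pow]; norm_num
    calc ((m : ℝ) + 1) * D ≤ 100 ^ m * D := by gcongr
      _ = 1 := by rw [mul_comm]; exact h3
  set e : ℝ := 1 / (8 * m) with he
  have hepos : 0 < e := by positivity
  have hem : (m : ℝ) * e = 1 / 8 := by rw [he]; field_simp
  have he1 : e ≤ 1 / 16 := by nlinarith
  have hk : (7 / 8) * D ≤ (d * (1 - e)) ^ m := by
    have := one_add_mul_le_pow (a := -e) (by linarith) m
    rw [mul_pow, ← hD]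
    have h2 : (1 + -e) = 1 - e := by ring
    rw [h2] at this
    have h3 : (7 : ℝ) / 8 ≤ (1 - e) ^ m := by nlinarith
    nlinarith
  have hk2 : (d * (1 - e)) ^ m ≤ D := by
    rw [hD]
    have hd0 : (0 : ℝ) < d := by norm_num
    have h0 : 0 ≤ d * (1 - e) := mul_nonneg hd0.le (by linarith)
    have h1 : d * (1 - e) ≤ d := by nlinarith
    exact pow_le_pow_left₀ h0 h1 m
  have hq : 1 - (m : ℝ) * (D / 6) ≤ (1 - D / 6) ^ m := by
    have := one_add_mul_le_pow (a := -(D / 6)) (by nlinarith) m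
    have h2 : (1 + -(D / 6)) = 1 - D / 6 := by ring
    rw [h2] at this
    linarith
  have hDs : D ≤ 1 / 2 := by nlinarith
  refine ⟨d * (1 - e), d, 1 - D / 6, 1 - D / 8, ?_, ?_, ?_, ?_, ?_, ?_, ?_, ?_⟩
  · have : 0 < 1 - e := by linarith
    positivity
  · have : 0 < d := by norm_num
    nlinarith
  · norm_num
  · linarith
  · linarith
  · nlinarith
  · have h1 : ((m : ℝ) + 1) * ((7 / 8) * D) ≤ ((m : ℝ) + 1) * (d * (1 - e)) ^ m := by gcongr
    nlinarith
  · set x : ℝ := D / 8 with hx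
    have hx0 : 0 < x := by positivity
    have h1 : (1 - x) ^ (m + 1) * (1 + ((m : ℝ) + 1) * x) ≤ 1 := by
      have h2 : 1 + ((m : ℝ) + 1) * x ≤ (1 + x) ^ (m + 1) := by
        have := one_add_mul_le_pow (a := x) (by linarith) (m + 1)
        push_cast at this
        linarith
      have h3 : 0 ≤ (1 - x) ^ (m + 1) := pow_nonneg (by linarith) _
      calc (1 - x) ^ (m + 1) * (1 + ((m : ℝ) + 1) * x) ≤ (1 - x) ^ (m + 1) * (1 + x) ^ (m + 1) := by
            gcongr
        _ = (1 - x ^ 2) ^ (m + 1) := by rw [← mul_pow]; congr 1; ring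
        _ ≤ 1 := pow_le_one₀ (by nlinarith) (by nlinarith)
    have h4 : d ^ (m + 1) = D / 100 := by rw [pow_succ, ← hD, hd]; ring
    rw [h4]
    have hnx : ((m : ℝ) + 1) * x ≤ 1 / 8 := by rw [hx]; linarith
    have hpos : 0 < 1 + ((m : ℝ) + 1) * x := by positivity
    have h5 : 1 < (1 - 2 * ((m : ℝ) + 1) * (D / 100)) * (1 + ((m : ℝ) + 1) * x) := by
      have h6 : 2 * ((m : ℝ) + 1) * (D / 100) = (16 / 100) * (((m : ℝ) + 1) * x) := by
        rw [hx]; ring
      rw [h6]
      have h7 : 0 < ((m : ℝ) + 1) * x := by positivity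
      nlinarith
    by_contra hc
    rw [not_lt] at hc
    have h8 : (1 - 2 * ((m : ℝ) + 1) * (D / 100)) * (1 + ((m : ℝ) + 1) * x) ≤
        (1 - x) ^ (m + 1) * (1 + ((m : ℝ) + 1) * x) := by gcongr
    linarith

end W62.ASA
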